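import Pool.Agent.H538.T5

set_option autoImplicit false

/-!
# The new Mersenne conjecture for almost every amplitude

Bateman, Selfridge and Wagstaff (1989) conjectured for odd `p`: if two of the statements
(a) `p = 2 ^ k ± 1` or `p = 4 ^ k ± 3` for some `k`, (b) `2 ^ p - 1` is a prime, (c) `(2 ^ p + 1) / 3` is a prime
hold, then so does the third.  The number of the primes `p ≤ n` with (b) is conjecturally asymptotic to
`(e ^ γ / log 2) * log n`, and likewise with (c).

For a base `b ≥ 2`, a real `β > 0`, an integer `c` and a prime `p` let `N b β c p = ⌈β * b ^ p⌉ + c`; for `b = 2` and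
`β = 1` these are the numbers `2 ^ p + c`.  Let `RoughPrime p m` mean that the `p`-rough part of `m` (the product of the
prime factors exceeding `p`) is a prime.  For `m = 2 ^ p - 1` this means that `2 ^ p - 1` is a prime, for
`m = 2 ^ p + 1` and `p ≥ 5` that `(2 ^ p + 1) / 3` is a prime.

We prove for almost every `β > 0`, simultaneously for all `b ≥ 2` and all integers `c ≠ c'`:
* the number of the primes `p ≤ n` for which the `p`-rough part of `N b β c p` is a prime is asymptotic to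
  `(e ^ γ / log b) * log n`, and the same holds with weights along every set of primes with divergent weights;
* the `p`-rough parts of `N b β c p` and of `N b β c' p` are both primes for finitely many `p` only;
* for every set `T` of primes for which the sum of `(log p) / p` over `T` converges (for instance the primes
  `2 ^ k ± 1` and `4 ^ k ± 3`) the `p`-rough part of `N b β c p` is a prime for finitely many `p` in `T` only.
So for almost every amplitude, for all large primes `p` at most one of the three statements (a), (b), (c) holds, although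
(b) and (c) each hold for infinitely many `p`, with the expected density.

Proof: two-dimensional upper bound sieve for the pairs of shifted integers, also for near exponents (`H538/T1`), law
for shifted sieved families (`T2`), Borel-Cantelli lemma for almost every amplitude (`T3`), local densities (`T4`).
-/

namespace Pool.Agent.Results.MP_9f2b0c_nt.AlmostEveryAmplitude

open Filter Topology MeasureTheory

/-- The integer `⌈β * b ^ p⌉ + c` (for negative values: zero). -/
noncomputable def N (b : ℕ) (β : ℝ) (c : ℤ) (p : ℕ) : ℕ := ((⌈β * (b : ℝ) ^ p⌉₊ : ℤ) + c).toNat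

/-- The `p`-rough part of `m` is a prime: `m` has exactly one prime factor exceeding `p`, counted with multiplicity. -/
def RoughPrime (p m : ℕ) : Prop := (m.primeFactorsList.filter (fun l => p < l)).length = 1

open Classical in
/-- The number of the primes `p ≤ n` in `S` for which the `p`-rough part of `⌈β * b ^ p⌉ + c` is a prime. -/
noncomputable def K (b : ℕ) (S : Set ℕ) (β : ℝ) (c : ℤ) (n : ℕ) : ℕ :=
  ((Finset.range (n + 1)).filter (fun p => p.Prime ∧ p ∈ S ∧ RoughPrime p (N b β c p))).card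

open Classical in
/-- The sum of `(log p) / p` over the primes `p ≤ n` in the set `S`. -/
noncomputable def V (S : Set ℕ) (n : ℕ) : ℝ :=
  ∑ p ∈ (Finset.range (n + 1)).filter (fun p => p.Prime ∧ p ∈ S), Real.log p / p

open Classical in
/-- The sum of `(log p) / p` over the primes in `T` converges. -/
def Sparse (T : Set ℕ) : Prop := Summable fun p : ℕ => if p.Prime ∧ p ∈ T then Real.log p / p else 0

/-- The numbers `2 ^ k ± 1` and `4 ^ k ± 3`. -/
def BSW : Set ℕ := {p | ∃ k : ℕ, p = 2 ^ k + 1 ∨ p + 1 = 2 ^ k ∨ p = 4 ^ k + 3 ∨ p + 3 = 4 ^ k}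

lemma N_one (p : ℕ) : N 2 1 (-1) p = 2 ^ p - 1 ∧ N 2 1 1 p = 2 ^ p + 1 := by
  have e1 : ⌈(1 : ℝ) * ((2 : ℕ) : ℝ) ^ p⌉₊ = 2 ^ p := by
    rw [one_mul]
    have : (((2 : ℕ) : ℝ) ^ p) = ((2 ^ p : ℕ) : ℝ) := by push_cast; rfl
    rw [this, Nat.ceil_natCast]
  unfold N
  rw [e1]
  have h := Nat.one_le_two_pow (n := p)
  constructor
  · omega
  · omega

/-- the prime factors of `2 ^ p - 1` exceed `p` -/
lemma factor_lt {p l : ℕ} (hp : p.Prime) (hl : l.Prime) (hd : l ∣ 2 ^ p - 1) : p < l := by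
  have : Fact l.Prime := ⟨hl⟩
  have : Fact p.Prime := ⟨hp⟩
  have h1 : (2 : ZMod l) ^ p = 1 := by
    have h3 : ((2 ^ p - 1 : ℕ) : ZMod l) = 0 := (ZMod.natCast_eq_zero_iff _ _).2 hd
    rw [Nat.cast_sub Nat.one_le_two_pow] at h3
    push_cast at h3
    exact sub_eq_zero.1 h3
  have h2 : (2 : ZMod l) ≠ 1 := by
    intro h
    have : (1 : ZMod l) = 0 := by linear_combination h
    exact one_ne_zero this
  have h4 : orderOf (2 : ZMod l) = p := orderOf_eq_prime h1 h2
  have h5 : (2 : ZMod l) ≠ 0 := by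
    intro h
    rw [h, zero_pow hp.ne_zero] at h1
    exact zero_ne_one h1
  have h6 : orderOf (2 : ZMod l) ∣ l - 1 := orderOf_dvd_of_pow_eq_one (ZMod.pow_card_sub_one_eq_one h5)
  rw [h4] at h6
  have h7 : p ≤ l - 1 := Nat.le_of_dvd (by have := hl.two_le; omega) h6
  have := hl.two_le
  omega

/-- the prime factors of `2 ^ p + 1` other than `3` exceed `p` -/
lemma factor_lt' {p l : ℕ} (hp : p.Prime) (hl : l.Prime) (hd : l ∣ 2 ^ p + 1) (h3 : l ≠ 3) : p < l := by
  have : Fact l.Prime := ⟨hl⟩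
  have : Fact p.Prime := ⟨hp⟩
  have h1 : (2 : ZMod l) ^ p = -1 := by
    have h3 : ((2 ^ p + 1 : ℕ) : ZMod l) = 0 := (ZMod.natCast_eq_zero_iff _ _).2 hd
    push_cast at h3
    exact eq_neg_of_add_eq_zero_left h3
  have h1' : (4 : ZMod l) ^ p = 1 := by
    have : (4 : ZMod l) = 2 ^ 2 := by norm_num
    rw [this, ← pow_mul, mul_comm, pow_mul, h1]
    norm_num
  have h2 : (4 : ZMod l) ≠ 1 := by
    intro h
    have h4 : ((3 : ℕ) : ZMod l) = 0 := by push_cast; linear_combination h
    have h5 : l ∣ 3 := (ZMod.natCast_eq_zero_iff _ _).1 h4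
    exact h3 ((Nat.prime_dvd_prime_iff_eq hl Nat.prime_three).1 h5)
  have h4 : orderOf (4 : ZMod l) = p := orderOf_eq_prime h1' h2
  have h5 : (4 : ZMod l) ≠ 0 := by
    intro h
    rw [h, zero_pow hp.ne_zero] at h1'
    exact zero_ne_one h1'
  have h6 : orderOf (4 : ZMod l) ∣ l - 1 := orderOf_dvd_of_pow_eq_one (ZMod.pow_card_sub_one_eq_one h5)
  rw [h4] at h6
  have h7 : p ≤ l - 1 := Nat.le_of_dvd (by have := hl.two_le; omega) h6
  have := hl.two_le
  omega

lemma one_iff {m : ℕ} (hm : m ≠ 0) : m.primeFactorsList.length = 1 ↔ m.Prime := by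
  constructor
  · intro h
    obtain ⟨l, hl⟩ := List.length_eq_one_iff.1 h
    have h1 : l ∈ m.primeFactorsList := by rw [hl]; simp
    have h2 := Nat.prod_primeFactorsList hm
    rw [hl, List.prod_singleton] at h2
    rw [← h2]
    exact Nat.prime_of_mem_primeFactorsList h1
  · intro h
    rw [Nat.primeFactorsList_prime h]
    rfl

lemma rough_mersenne {p : ℕ} (hp : p.Prime) : RoughPrime p (2 ^ p - 1) ↔ (2 ^ p - 1).Prime := by
  have hM : 2 ^ p - 1 ≠ 0 := by
    have : 2 ^ 2 ≤ 2 ^ p := Nat.pow_le_pow_right (by norm_num) hp.two_le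
    omega
  unfold RoughPrime
  rw [List.filter_eq_self.2, one_iff hM]
  intro l hl
  obtain ⟨h1, h2⟩ := (Nat.mem_primeFactorsList hM).1 hl
  simpa using factor_lt hp h1 h2

lemma three_dvd {p : ℕ} (hp : p.Prime) (h5 : 5 ≤ p) : 2 ^ p + 1 = 3 * ((2 ^ p + 1) / 3) ∧ ¬ 3 ∣ (2 ^ p + 1) / 3 := by
  have h2 : p % 6 = 1 ∨ p % 6 = 5 := by
    have h3 : p % 2 ≠ 0 := by
      intro h
      have := (Nat.prime_dvd_prime_iff_eq Nat.prime_two hp).1 (Nat.dvd_of_mod_eq_zero h)
      omega
    have h4 : p % 3 ≠ 0 := by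
      intro h
      have := (Nat.prime_dvd_prime_iff_eq Nat.prime_three hp).1 (Nat.dvd_of_mod_eq_zero h)
      omega
    omega
  have h9 : (2 ^ p + 1) % 9 = 3 ∨ (2 ^ p + 1) % 9 = 6 := by
    have e : 2 ^ p = (2 ^ 6) ^ (p / 6) * 2 ^ (p % 6) := by
      rw [← pow_mul, ← pow_add, Nat.div_add_mod]
    have e2 : (2 ^ p) % 9 = (2 ^ (p % 6)) % 9 := by
      rw [e, Nat.mul_mod, Nat.pow_mod]
      norm_num
    rw [Nat.add_mod, e2]
    rcases h2 with h | h <;> rw [h] <;> norm_num
  omega

lemma rough_wagstaff {p : ℕ} (hp : p.Prime) (h5 : 5 ≤ p) : RoughPrime p (2 ^ p + 1) ↔ ((2 ^ p + 1) / 3).Prime := by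
  obtain ⟨h1, h2⟩ := three_dvd hp h5
  set m := (2 ^ p + 1) / 3 with hm
  have hm0 : m ≠ 0 := by
    rintro h
    rw [h] at h2
    exact h2 (dvd_zero 3)
  unfold RoughPrime
  rw [h1]
  have hperm := Nat.perm_primeFactorsList_mul (show 3 ≠ 0 by norm_num) hm0
  rw [(hperm.filter _).length_eq, List.filter_append, List.length_append, Nat.primeFactorsList_prime Nat.prime_three]
  have e1 : ([3].filter (fun l => decide (p < l))).length = 0 := by
    rw [List.length_eq_zero_iff, List.filter_eq_nil_iff]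
    intro l hl
    rw [List.mem_singleton] at hl
    subst hl
    simp only [decide_eq_true_eq]
    omega
  have e2 : m.primeFactorsList.filter (fun l => decide (p < l)) = m.primeFactorsList := by
    rw [List.filter_eq_self]
    intro l hl
    obtain ⟨g1, g2⟩ := (Nat.mem_primeFactorsList hm0).1 hl
    have g3 : l ∣ 2 ^ p + 1 := by rw [h1]; exact Dvd.dvd.mul_left g2 3
    have g4 : l ≠ 3 := by
      rintro rfl
      exact h2 g2
    simpa using factor_lt' hp g1 g3 g4
  rw [e1, e2, zero_add, one_iff hm0]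

/-- sums over exponentially growing sequences -/
lemma sum_range {t : ℕ → ℕ} (hi : Function.Injective t) (ht : ∀ k : ℕ, 1 ≤ k → 2 ^ k ≤ 4 * t k) :
    Summable (Set.indicator (Set.range t) fun p : ℕ => Real.log p / p) := by
  rw [← hi.summable_iff (fun x hx => Set.indicator_of_notMem hx _), ← summable_nat_add_iff 1]
  have hs2 : (0 : ℝ) < √2 := by positivity
  have h1s : (1 : ℝ) < √2 := by
    rw [Real.lt_sqrt (by norm_num)]
    norm_num
  have hg : Summable fun k : ℕ => 4 * ((√2)⁻¹) ^ (k + 1) :=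
    ((summable_nat_add_iff 1).2 (summable_geometric_of_lt_one (by positivity) (inv_lt_one_of_one_lt₀ h1s))).mul_left 4
  refine Summable.of_nonneg_of_le (fun k => ?_) (fun k => ?_) hg
  · simp only [Function.comp]
    rw [Set.indicator_of_mem (Set.mem_range_self _)]
    have := Real.log_natCast_nonneg (t (k + 1))
    positivity
  · simp only [Function.comp]
    rw [Set.indicator_of_mem (Set.mem_range_self _)]
    have h1 := ht (k + 1) (by omega)
    set x : ℝ := (t (k + 1) : ℝ) with hx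
    have h2 : (2 : ℝ) ^ (k + 1) ≤ 4 * x := by
      rw [hx]
      exact_mod_cast h1
    have hx0 : 0 < x := by
      have : (0 : ℝ) < 2 ^ (k + 1) := by positivity
      linarith
    have h3 := Real.log_le_rpow_div hx0.le (show (0 : ℝ) < 1 / 2 by norm_num)
    rw [← Real.sqrt_eq_rpow] at h3
    have h4 : (√2) ^ (k + 1) ≤ 2 * √x := by
      have e1 : ((√2) ^ (k + 1)) ^ 2 = (2 : ℝ) ^ (k + 1) := by
        rw [← pow_mul, mul_comm, pow_mul, Real.sq_sqrt (by norm_num)]
      have e2 : (2 * √x) ^ 2 = 4 * x := by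
        rw [mul_pow, Real.sq_sqrt hx0.le]
        norm_num
      refine (pow_le_pow_iff_left₀ (by positivity) (by positivity) two_ne_zero).1 ?_
      rw [e1, e2]
      exact h2
    have h5 : Real.log x / x ≤ 2 / √x := by
      rw [div_le_div_iff₀ hx0 (by positivity)]
      have e3 : √x * √x = x := Real.mul_self_sqrt hx0.le
      have e4 : 0 ≤ √x := by positivity
      nlinarith
    refine h5.trans ?_
    rw [inv_pow, div_le_iff₀ (by positivity)]
    have h6 : (0 : ℝ) < (√2) ^ (k + 1) := by positivity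
    rw [mul_assoc, inv_mul_eq_div, mul_div_assoc', le_div_iff₀ h6]
    linarith

lemma pow_inj {a : ℕ} (ha : 2 ≤ a) {k l : ℕ} (h : a ^ k = a ^ l) : k = l := Nat.pow_right_injective ha h

lemma bsw_sparse : Sparse BSW := by
  classical
  have h1 := sum_range (t := fun k => 2 ^ k + 1) (fun k l h => pow_inj le_rfl (by simpa using h))
    (fun k _ => by show 2 ^ k ≤ 4 * (2 ^ k + 1); omega)
  have h2 := sum_range (t := fun k => 2 ^ k - 1) (fun k l h => pow_inj le_rfl (by
      have g1 := Nat.one_le_two_pow (n := k)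
      have g2 := Nat.one_le_two_pow (n := l)
      simp only at h
      omega))
    (fun k hk => by
      have : 2 ^ 1 ≤ 2 ^ k := Nat.pow_le_pow_right (by norm_num) hk
      show 2 ^ k ≤ 4 * (2 ^ k - 1)
      omega)
  have h3 := sum_range (t := fun k => 4 ^ k + 3) (fun k l h => pow_inj (by norm_num : 2 ≤ 4) (by simpa using h))
    (fun k _ => by
      have : 2 ^ k ≤ 4 ^ k := Nat.pow_le_pow_left (by norm_num) k
      show 2 ^ k ≤ 4 * (4 ^ k + 3)
      omega)
  have h4 := sum_range (t := fun k => 4 ^ k - 3) (fun k l h => by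
      simp only at h
      rcases Nat.eq_zero_or_pos k with hk | hk
      · rcases Nat.eq_zero_or_pos l with hl | hl
        · omega
        · have : 4 ^ 1 ≤ 4 ^ l := Nat.pow_le_pow_right (by norm_num) hl
          subst hk
          simp only [pow_zero] at h
          omega
      · rcases Nat.eq_zero_or_pos l with hl | hl
        · have : 4 ^ 1 ≤ 4 ^ k := Nat.pow_le_pow_right (by norm_num) hk
          subst hl
          simp only [pow_zero] at h
          omega
        · have g1 : 4 ^ 1 ≤ 4 ^ k := Nat.pow_le_pow_right (by norm_num) hk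
          have g2 : 4 ^ 1 ≤ 4 ^ l := Nat.pow_le_pow_right (by norm_num) hl
          exact pow_inj (by norm_num : 2 ≤ 4) (by omega))
    (fun k hk => by
      have g1 : 4 ^ 1 ≤ 4 ^ k := Nat.pow_le_pow_right (by norm_num) hk
      have g2 : 2 ^ k ≤ 4 ^ k := Nat.pow_le_pow_left (by norm_num) k
      show 2 ^ k ≤ 4 * (4 ^ k - 3)
      omega)
  have h5 := ((h1.add h2).add h3).add h4
  unfold Sparse
  have hnn : ∀ (s : Set ℕ) (p : ℕ), 0 ≤ Set.indicator s (fun p : ℕ => Real.log p / p) p := fun s p =>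
    Set.indicator_nonneg (fun p _ => by
      have := Real.log_natCast_nonneg p
      positivity) p
  refine Summable.of_nonneg_of_le (fun p => ?_) (fun p => ?_) h5
  · split_ifs
    · have := Real.log_natCast_nonneg p
      positivity
    · exact le_rfl
  · by_cases h : p.Prime ∧ p ∈ BSW
    · rw [if_pos h]
      obtain ⟨_, k, h6 | h6 | h6 | h6⟩ := h
      · have e := Set.indicator_of_mem (f := fun p : ℕ => Real.log p / p)
          (show p ∈ Set.range fun k => 2 ^ k + 1 from ⟨k, h6.symm⟩)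
        rw [e]
        linarith [hnn (Set.range fun k => 2 ^ k - 1) p, hnn (Set.range fun k => 4 ^ k + 3) p,
          hnn (Set.range fun k => 4 ^ k - 3) p]
      · have e := Set.indicator_of_mem (f := fun p : ℕ => Real.log p / p)
          (show p ∈ Set.range fun k => 2 ^ k - 1 from ⟨k, by simp only; omega⟩)
        rw [e]
        linarith [hnn (Set.range fun k => 2 ^ k + 1) p, hnn (Set.range fun k => 4 ^ k + 3) p,
          hnn (Set.range fun k => 4 ^ k - 3) p]
      · have e := Set.indicator_of_mem (f := fun p : ℕ => Real.log p / p)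
          (show p ∈ Set.range fun k => 4 ^ k + 3 from ⟨k, h6.symm⟩)
        rw [e]
        linarith [hnn (Set.range fun k => 2 ^ k + 1) p, hnn (Set.range fun k => 2 ^ k - 1) p,
          hnn (Set.range fun k => 4 ^ k - 3) p]
      · have e := Set.indicator_of_mem (f := fun p : ℕ => Real.log p / p)
          (show p ∈ Set.range fun k => 4 ^ k - 3 from ⟨k, by simp only; omega⟩)
        rw [e]
        linarith [hnn (Set.range fun k => 2 ^ k + 1) p, hnn (Set.range fun k => 2 ^ k - 1) p,
          hnn (Set.range fun k => 4 ^ k + 3) p]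
    · rw [if_neg h]
      linarith [hnn (Set.range fun k => 2 ^ k + 1) p, hnn (Set.range fun k => 2 ^ k - 1) p,
        hnn (Set.range fun k => 4 ^ k + 3) p, hnn (Set.range fun k => 4 ^ k - 3) p]

lemma N_eq {b : ℕ} (hb : 2 ≤ b) {β : ℝ} (hβ : 0 < β) (c : ℤ) (p : ℕ) :
    N b β c p = Pool.Agent.H538.shf (c + 1) (Pool.Agent.H538.NB b β p) := by
  unfold N Pool.Agent.H538.shf Pool.Agent.H538.NB
  have hb0 : (0 : ℝ) < b := by exact_mod_cast (by omega : 0 < b)
  have h1 : 1 ≤ ⌈β * (b : ℝ) ^ p⌉₊ := Nat.one_le_iff_ne_zero.2 (by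
    rw [Ne, Nat.ceil_eq_zero, not_le]
    positivity)
  congr 1
  omega

lemma rough_iff {b : ℕ} (hb : 2 ≤ b) {β : ℝ} (hβ : 0 < β) (c : ℤ) (p : ℕ) :
    RoughPrime p (N b β c p) ↔ Pool.Agent.H538.EP (c + 1) p (Pool.Agent.H538.NB b β p) := by
  rw [N_eq hb hβ]
  exact Iff.rfl

lemma K_eq {b : ℕ} (hb : 2 ≤ b) (S : Set ℕ) {β : ℝ} (hβ : 0 < β) (c : ℤ) (n : ℕ) :
    K b S β c n = Pool.Agent.H538.cA (Pool.Agent.H538.EP (c + 1)) b S β n := by
  unfold K Pool.Agent.H538.cA
  congr 1
  ext p
  simp only [Finset.mem_filter, rough_iff hb hβ]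
  exact Iff.rfl

lemma ck_eq (b : ℕ) : Pool.Agent.H538.ck b 0 = Real.exp Real.eulerMascheroniConstant / Real.log b := by
  unfold Pool.Agent.H538.ck
  simp

theorem law {S : Set ℕ} (hS : Tendsto (V S) atTop atTop) : ∀ᵐ β : ℝ, 0 < β → ∀ b : ℕ, 2 ≤ b → ∀ c : ℤ,
    Tendsto (fun n : ℕ => (K b S β c n : ℝ) / V S n) atTop
      (𝓝 (Real.exp Real.eulerMascheroniConstant / Real.log b)) := by
  have h1 : ∀ᵐ β : ℝ, ∀ b : ℕ, ∀ c : ℤ, 2 ≤ b → 0 < β →
      Tendsto (fun n : ℕ => (K b S β c n : ℝ) / V S n) atTop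
        (𝓝 (Real.exp Real.eulerMascheroniConstant / Real.log b)) := by
    rw [ae_all_iff]
    intro b
    rw [ae_all_iff]
    intro c
    by_cases hb : 2 ≤ b
    · filter_upwards [Pool.Agent.H538.law_EP hb (c + 1) S hS] with β hβ _ h0
      have h2 := hβ h0
      rw [ck_eq] at h2
      refine h2.congr fun n => ?_
      rw [K_eq hb S h0]
      rfl
    · exact Eventually.of_forall fun β h => absurd h hb
  filter_upwards [h1] with β hβ h0 b hb c
  exact hβ b c hb h0

theorem V_univ : Tendsto (fun n : ℕ => V Set.univ n / Real.log n) atTop (𝓝 1) := by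
  have h := Pool.Agent.H538.UU_tendsto 0
  simp only [Nat.cast_zero, zero_add, div_one, pow_one] at h
  refine h.congr fun n => ?_
  rw [← Pool.Agent.H538.vK_univ 0 n]
  congr 1
  unfold Pool.Agent.H538.vK V
  refine Finset.sum_congr rfl fun p _ => ?_
  rw [zero_add, pow_one]

theorem law_log : ∀ᵐ β : ℝ, 0 < β → ∀ b : ℕ, 2 ≤ b → ∀ c : ℤ,
    Tendsto (fun n : ℕ => (K b Set.univ β c n : ℝ) / Real.log n) atTop
      (𝓝 (Real.exp Real.eulerMascheroniConstant / Real.log b)) := by
  have hlog : Tendsto (fun q : ℕ => Real.log q) atTop atTop :=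
    Real.tendsto_log_atTop.comp tendsto_natCast_atTop_atTop
  have hV : Tendsto (V Set.univ) atTop atTop := by
    have h1 := V_univ.pos_mul_atTop one_pos hlog
    refine h1.congr' ?_
    filter_upwards [hlog.eventually_gt_atTop 0] with n hn
    field_simp
  filter_upwards [law hV] with β hβ h0 b hb c
  have h1 := (hβ h0 b hb c).mul V_univ
  rw [mul_one] at h1
  refine h1.congr' ?_
  filter_upwards [hV.eventually_gt_atTop 0] with n hn
  rw [div_mul_div_cancel₀ hn.ne']

theorem pairs : ∀ᵐ β : ℝ, 0 < β → ∀ b : ℕ, 2 ≤ b → ∀ c c' : ℤ, c ≠ c' →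
    ∀ᶠ p : ℕ in atTop, ¬ (RoughPrime p (N b β c p) ∧ RoughPrime p (N b β c' p)) := by
  have h1 : ∀ᵐ β : ℝ, ∀ b : ℕ, ∀ c c' : ℤ, 2 ≤ b → c ≠ c' → 0 < β →
      ∀ᶠ p : ℕ in atTop, ¬ (RoughPrime p (N b β c p) ∧ RoughPrime p (N b β c' p)) := by
    rw [ae_all_iff]
    intro b
    rw [ae_all_iff]
    intro c
    rw [ae_all_iff]
    intro c'
    by_cases hb : 2 ≤ b
    · by_cases hcc : c ≠ c'
      · filter_upwards [Pool.Agent.H538.pair_few hb (show c + 1 ≠ c' + 1 by omega)] with β hβ _ _ h0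
        filter_upwards [hβ h0] with p hp
        rw [rough_iff hb h0, rough_iff hb h0]
        exact hp
      · exact Eventually.of_forall fun β _ h => absurd h hcc
    · exact Eventually.of_forall fun β h => absurd h hb
  filter_upwards [h1] with β hβ h0 b hb c c' hcc
  exact hβ b c c' hb hcc h0

theorem sparse {T : Set ℕ} (hT : Sparse T) : ∀ᵐ β : ℝ, 0 < β → ∀ b : ℕ, 2 ≤ b → ∀ c : ℤ,
    ∀ᶠ p : ℕ in atTop, p.Prime → p ∈ T → ¬ RoughPrime p (N b β c p) := by
  classical
  have h1 : ∀ᵐ β : ℝ, ∀ b : ℕ, ∀ c : ℤ, 2 ≤ b → 0 < β →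
      ∀ᶠ p : ℕ in atTop, p.Prime → p ∈ T → ¬ RoughPrime p (N b β c p) := by
    rw [ae_all_iff]
    intro b
    rw [ae_all_iff]
    intro c
    by_cases hb : 2 ≤ b
    · have hT' : Summable fun p : ℕ => if p.Prime ∧ p ∈ T then Real.log p / p else 0 := by
        refine hT.congr fun p => ?_
        congr 1
      filter_upwards [Pool.Agent.H538.sparse_few hb (c + 1) hT'] with β hβ _ h0
      filter_upwards [hβ h0] with p hp hpp hpT
      rw [rough_iff hb h0]
      exact fun h => hp ⟨hpp, hpT, h⟩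
    · exact Eventually.of_forall fun β h => absurd h hb
  filter_upwards [h1] with β hβ h0 b hb c
  exact hβ b c hb h0

/-- The metric form of the new Mersenne conjecture: for `b = 2`, `β = 1` and `c = -1` respectively `c = 1` the events are
that `2 ^ p - 1` respectively `(2 ^ p + 1) / 3` is a prime; for almost every `β > 0`, all bases and all shifts, each of the
events obeys the law with the constant `e ^ γ / log b`; two of them occur together for finitely many `p` only; they
occur for finitely many `p` in a given sparse set of primes only, and the numbers `2 ^ k ± 1`, `4 ^ k ± 3` form such a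
set; so for all large primes `p` at most one of the three conditions of Bateman, Selfridge and Wagstaff holds. -/
theorem result :
    (∀ p : ℕ, N 2 1 (-1) p = 2 ^ p - 1 ∧ N 2 1 1 p = 2 ^ p + 1) ∧
    (∀ p : ℕ, p.Prime → (RoughPrime p (2 ^ p - 1) ↔ (2 ^ p - 1).Prime)) ∧
    (∀ p : ℕ, p.Prime → 5 ≤ p → (RoughPrime p (2 ^ p + 1) ↔ ((2 ^ p + 1) / 3).Prime)) ∧
    (∀ᵐ β : ℝ, 0 < β → ∀ b : ℕ, 2 ≤ b → ∀ c : ℤ,
      Tendsto (fun n : ℕ => (K b Set.univ β c n : ℝ) / Real.log n) atTop
        (𝓝 (Real.exp Real.eulerMascheroniConstant / Real.log b))) ∧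
    (∀ S : Set ℕ, Tendsto (V S) atTop atTop → ∀ᵐ β : ℝ, 0 < β → ∀ b : ℕ, 2 ≤ b → ∀ c : ℤ,
      Tendsto (fun n : ℕ => (K b S β c n : ℝ) / V S n) atTop
        (𝓝 (Real.exp Real.eulerMascheroniConstant / Real.log b))) ∧
    (∀ᵐ β : ℝ, 0 < β → ∀ b : ℕ, 2 ≤ b → ∀ c c' : ℤ, c ≠ c' →
      ∀ᶠ p : ℕ in atTop, ¬ (RoughPrime p (N b β c p) ∧ RoughPrime p (N b β c' p))) ∧
    (∀ T : Set ℕ, Sparse T → ∀ᵐ β : ℝ, 0 < β → ∀ b : ℕ, 2 ≤ b → ∀ c : ℤ,
      ∀ᶠ p : ℕ in atTop, p.Prime → p ∈ T → ¬ RoughPrime p (N b β c p)) ∧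
    Sparse BSW ∧
    (∀ᵐ β : ℝ, 0 < β → ∀ b : ℕ, 2 ≤ b → ∀ c c' : ℤ, c ≠ c' → ∀ᶠ p : ℕ in atTop, p.Prime →
      ¬ (p ∈ BSW ∧ RoughPrime p (N b β c p)) ∧ ¬ (p ∈ BSW ∧ RoughPrime p (N b β c' p)) ∧
      ¬ (RoughPrime p (N b β c p) ∧ RoughPrime p (N b β c' p))) := by
  refine ⟨N_one, fun p hp => rough_mersenne hp, fun p hp h5 => rough_wagstaff hp h5, law_log,
    fun S hS => law hS, pairs, fun T hT => sparse hT, bsw_sparse, ?_⟩
  filter_upwards [pairs, sparse bsw_sparse] with β h1 h2 h0 b hb c c' hcc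
  filter_upwards [h1 h0 b hb c c' hcc, h2 h0 b hb c, h2 h0 b hb c'] with p g1 g2 g3 hp
  exact ⟨fun h => g2 hp h.1 h.2, fun h => g3 hp h.1 h.2, g1⟩

end Pool.Agent.Results.MP_9f2b0c_nt.AlmostEveryAmplitude
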